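import Pool.Agent.MWH.StmtsA

/-!
# Block MWH, row LT4 (with the core for arbitrary period)
-/

namespace Pool.Agent.MWH.H30L

open Pool.Agent.Helper14_MV Pool.Agent.Helper2_MV Pool.Agent.MVO Pool.Agent.MWL Pool.Agent.MWS

lemma lb_add_le (k : ℕ) (a : ℕ → ℕ) (j : ℕ) (hj : j ≤ k) : lb a j + a j ≤ deg k a := by
  unfold deg lb
  have h1 : ∑ t ∈ Finset.range (j + 1), a t ≤ ∑ t ∈ Finset.range (k + 1), a t :=
    Finset.sum_le_sum_of_subset (Finset.range_mono (by omega))
  have h2 : ((Finset.range j).filter (fun t => a t ≠ 0)).card ≤ ∑ t ∈ Finset.range j, a t := by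
    rw [Finset.card_eq_sum_ones, Finset.sum_filter]
    refine Finset.sum_le_sum fun t _ => ?_
    split_ifs with h
    · exact Nat.one_le_iff_ne_zero.mpr h
    · exact Nat.zero_le _
  rw [Finset.sum_range_succ] at h1
  omega

lemma dmono (hA : ArrStmt) (n : ℕ) (R : FC) (hR : LR n R) (l m : ℕ) (hlm : l ≤ m)
    (h : Has n R (Bit.D l)) : Has n R (Bit.D m) := by
  induction m, hlm using Nat.le_induction with
  | base => exact h
  | succ m _ ih => exact (hA n R hR).2.2.2.1 m ih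

lemma jmono (hA : ArrStmt) (n : ℕ) (R : FC) (hR : LR n R) (m : ℕ) (hm : 3 ≤ m)
    (h : Has n R (Bit.J 3)) : Has n R (Bit.J m) := by
  induction m, hm using Nat.le_induction with
  | base => exact h
  | succ m hm ih => exact ((hA n R hR).2.2.2.2.1 m (by omega) ih).1

/-- the core for arbitrary period -/
theorem lt4_core (hH : HvpStmt) (hA : ArrStmt) (hT1 : Ta1Stmt) (hT2 : Ta2Stmt) (n : ℕ) (R : FC)
    (hR : LR n R) (k : ℕ) (a : ℕ → ℕ) (hN : ∀ j ≤ k, a j ≠ 0 → Ab n R k a j → 2 ≤ a j)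
    (hd : 2 ≤ deg k a) (j : ℕ) (hj : j ≤ k) (haj : a j ≠ 0) :
    ((∃ p ≤ j, 2 ≤ a p) → 2 ≤ a j) ∧
    (Has n R (Bit.J 3) → 2 ≤ lb a j → 2 ≤ a j) ∧
    (Has n R (Bit.J 3) → Has n R (Bit.D 1) →
      (∀ u v, u < v → v ≤ k → a u = 1 → a v = 1 → ¬ ∀ m ≤ k, m ≠ u → m ≠ v → a m = 0) →
      1 ≤ lb a j → 2 ≤ a j) := by
  have c1 : (∃ p ≤ j, 2 ≤ a p) → 2 ≤ a j := fun hp =>
    hN j hj haj ((hH n R hR k a j hj).1 ⟨haj, hp⟩)
  have main : ¬ (∃ p ≤ j, 2 ≤ a p) → Has n R (Bit.D (lb a j)) →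
      ((∀ p ≤ k, a p ≤ 1) → Has n R (Bit.J (deg k a))) → 2 ≤ a j := by
    intro hp hD hJ
    have hp' : ∀ p ≤ j, a p ≤ 1 := by
      intro p hpj
      by_contra h
      exact hp ⟨p, hpj, by omega⟩
    have ha1 : a j = 1 := by
      have := hp' j le_rfl
      omega
    by_cases hq : ∃ q, j < q ∧ q ≤ k ∧ 2 ≤ a q
    · exact hN j hj haj (((hT1 n R hR k a j hj).2.2.2 ha1 hp' hq).2 hD)
    · have hall : ∀ p ≤ k, a p ≤ 1 := by
        intro p hpk
        by_contra h
        rcases Nat.lt_or_ge j p with h1 | h1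
        · exact hq ⟨p, h1, hpk, by omega⟩
        · exact hp ⟨p, h1, by omega⟩
      exact hN j hj haj (((hT2 n R hR k a j hj hall hd).1 ha1).2 ⟨hJ hall, hD⟩)
  have hdeg := lb_add_le k a j hj
  refine ⟨c1, fun hJ hl => ?_, fun hJ hD hLL hl => ?_⟩
  · by_cases hp : ∃ p ≤ j, 2 ≤ a p
    · exact c1 hp
    · refine main hp ?_ fun _ => jmono hA n R hR _ (by omega) hJ
      exact dmono hA n R hR 2 _ hl ((hA n R hR).2.2.2.2.1 3 (by omega) hJ).2
  · by_cases hp : ∃ p ≤ j, 2 ≤ a p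
    · exact c1 hp
    · refine main hp (dmono hA n R hR 1 _ hl hD) fun hall => ?_
      refine jmono hA n R hR _ ?_ hJ
      by_contra h3
      have hd2 : deg k a = 2 := by omega
      have haj1 : a j = 1 := by
        have := hall j hj
        omega
      have hu : ∃ u, u < j ∧ a u ≠ 0 := by
        have h4 : 0 < ((Finset.range j).filter (fun t => a t ≠ 0)).card := hl
        obtain ⟨u, hu⟩ := Finset.card_pos.mp h4
        rw [Finset.mem_filter, Finset.mem_range] at hu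
        exact ⟨u, hu.1, hu.2⟩
      obtain ⟨u, huj, hu0⟩ := hu
      have hau : a u = 1 := by
        have := hall u (by omega)
        omega
      refine hLL u j huj hj hau haj1 fun m hm hmu hmj => ?_
      have hsub : ({m, u, j} : Finset ℕ) ⊆ Finset.range (k + 1) := by
        intro t ht
        simp only [Finset.mem_insert, Finset.mem_singleton] at ht
        rw [Finset.mem_range]
        rcases ht with rfl | rfl | rfl <;> omega
      have hs := Finset.sum_le_sum_of_subset (f := a) hsub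
      have hs2 : ∑ t ∈ ({m, u, j} : Finset ℕ), a t = a m + (a u + a j) := by
        rw [Finset.sum_insert (by simp [hmu, hmj]), Finset.sum_insert (by simp [huj.ne]),
          Finset.sum_singleton]
      rw [hs2] at hs
      have : ∑ t ∈ Finset.range (k + 1), a t = 2 := hd2
      omega

theorem lt4 (hH : HvpStmt) (hA : ArrStmt) (hT1 : Ta1Stmt) (hT2 : Ta2Stmt) : Lt4Stmt := by
  intro R hR k a hN hd j hj haj
  obtain ⟨h1, h2, h3⟩ := lt4_core hH hA hT1 hT2 1 R hR k a hN hd j hj haj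
  exact ⟨h1, h2, fun hJ hD hLL hl => h3 hJ hD
    (fun u v huv hv hu hv1 hz => hLL u v ⟨huv, hv, hu, hv1, hz⟩) hl⟩

end Pool.Agent.MWH.H30L

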