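import Pool.Agent.MWH.StmtsC
import Pool.Agent.MWS.StmtsA

/-!
# MWH, row ERI (helper30)
-/

namespace Pool.Agent.MWH.H30

open Pool.Agent.Helper14_MV Pool.Agent.Helper2_MV Pool.Agent.MVO Pool.Agent.MWL Pool.Agent.MWS
  Pool.Agent.MWH

theorem eg_nil {β : FIC} {k : ℕ} {a b : ℕ → ℕ} {i : ℕ} {s s' : Stt} (h : Tr β k a b i s s') :
    Eg β k a b i s s' :=
  ⟨[], by simp, fun θ hθ _ => ⟨fun _ => by simp, fun _ => hθ _ _ h⟩⟩

theorem eri (hLRN : LrnStmt) (hLT4 : Lt4Stmt) (hLHR : LhrStmt) (hUX1 : Ux1Stmt)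
    (hJX1 : Jx1Stmt) : EriStmt := by
  intro β hS k a b i p hV hN hL hb
  obtain ⟨h1, h2⟩ := hLHR β hS k a b i p hV hL.au hb hL.uv hL.vk (by rw [hL.av]; omega)
  refine ⟨eg_nil h1, ?_⟩
  by_cases hm : ∃ m, i < m ∧ m ≤ k ∧ b m ≠ 0
  · obtain ⟨m, hm1, hm2, hm3⟩ := hm
    have hLR := hLRN β β hS.toBaseR (fun _ _ h => h)
    have h3 := (hLT4 (FC.ofFIC β) hLR k b hN hV.db m hm2 hm3).1 ⟨i, hm1.le, hb⟩
    refine eg_nil (h2 ⟨m, hm1, hm2, h3⟩ Stt.yx Stt.ov ?_ ?_)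
    · intro h; exact absurd h (by decide)
    · intro _; exact Or.inr hb
  · refine ⟨[ce 1 [1, 1] [2, 0] 0 Stt.yx Stt.ov], ?_, ?_⟩
    · intro e he
      rw [List.mem_singleton] at he
      rw [he]
      exact hJX1 β hS
    · intro θ hθ _
      have h3 := hUX1 β θ hS.toBaseH hθ k a b i p hV hL hb (fun j hj1 hj2 => by
        by_contra h
        exact hm ⟨j, hj1, hj2, h⟩)
      rw [h3]
      constructor
      · intro h e he
        rw [List.mem_singleton] at he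
        rw [he]
        exact h
      · intro h
        exact h _ (List.mem_singleton.2 rfl)

end Pool.Agent.MWH.H30
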